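import Pool.Agent.Q198.EL.S2E

set_option autoImplicit false

/-! Project EL (helper51), job LOW. -/

namespace Pool.Agent.Q198.EL

open Polynomial Finset Pool.Agent.Q51.EL

/-- a rational point -/
lemma pt_of_eval {f : ℤ[X]} {x0 D : ℤ} {s : ℕ} (h : f.eval x0 = D * (s : ℤ) ^ 2) (F : Type) [Field F] :
    CurvePt f D F := by
  refine ⟨(x0 : F), 1, (s : F), Or.inr one_ne_zero, ?_⟩
  have h1 : hom f (x0 : F) 1 = ((f.eval x0 : ℤ) : F) := by
    unfold hom
    rw [eval_eq_sum_range]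
    push_cast
    refine sum_congr rfl fun i _ => ?_
    rw [one_pow, mul_one]
  rw [h1, h]
  push_cast
  ring

/-- some everywhere locally soluble twist -/
lemma exists_els {f : ℤ[X]} (hf : f ≠ 0) : ∃ D0 : ℤ, D0 ≠ 0 ∧ Squarefree D0 ∧ ELS f D0 := by
  obtain ⟨x0, hx0⟩ : ∃ x0 : ℤ, f.eval x0 ≠ 0 := by
    by_contra h
    push Not at h
    exact hf (Polynomial.funext fun r => by rw [h r, eval_zero])
  obtain ⟨a, b, hab, ha⟩ := Nat.sq_mul_squarefree (f.eval x0).natAbs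
  have ha0 : a ≠ 0 := ha.ne_zero
  have h1 : f.eval x0 = ((f.eval x0).sign * a) * (b : ℤ) ^ 2 := by
    have h2 := Int.sign_mul_natAbs (f.eval x0)
    rw [← hab] at h2
    push_cast at h2
    rw [← h2]
    rw [h2]
    conv_lhs => rw [← h2]
    ring
  have hs : (f.eval x0).sign ≠ 0 := by rw [Ne, Int.sign_eq_zero_iff_zero]; exact hx0
  have hn : ((f.eval x0).sign * a).natAbs = a := by
    rw [Int.natAbs_mul, Int.natAbs_sign_of_ne_zero hx0, one_mul, Int.natAbs_natCast]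
  refine ⟨(f.eval x0).sign * a, mul_ne_zero hs (by exact_mod_cast ha0), ?_, ?_, ?_⟩
  · rw [← Int.squarefree_natAbs, hn]; exact ha
  · exact pt_of_eval h1 ℝ
  · intro p _
    exact pt_of_eval h1 ℚ_[p]

open Classical in
/-- the definition of `Gf` was elaborated as a sum over the integers which are casts of primes -/
lemma Gf_eq (f : ℤ[X]) (Y : ℝ) :
    Gf f Y = ∑ q ∈ (pr Y).filter (fun q : ℕ => ∃ r : ℤ, (q : ℤ) ∣ f.eval r), (1 : ℝ) / (q : ℝ) := by
  unfold Gf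
  have h1 : (do let a ← pr Y; pure ((a : ℕ) : ℤ) : Finset ℤ) = (pr Y).image (fun a : ℕ => (a : ℤ)) := by
    ext x
    simp only [Finset.bind_def, Finset.pure_def, Finset.mem_sup, Finset.mem_singleton, Finset.mem_image]
    constructor
    · rintro ⟨a, ha, rfl⟩; exact ⟨a, ha, rfl⟩
    · rintro ⟨a, ha, rfl⟩; exact ⟨a, ha, rfl⟩
  rw [h1, filter_image, sum_image fun a _ b _ h => by exact_mod_cast h]
  refine sum_congr rfl fun q _ => ?_
  simp

lemma Gf_le (f : ℤ[X]) {X M : ℝ} (hM : 1 ≤ M) (hX : M ≤ X) : Gf f X ≤ Gf f (X / M) + M := by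
  classical
  have hM0 : 0 < M := by linarith
  have hX0 : 0 < X := by linarith
  have hXM : 0 < X / M := by positivity
  have hle : X / M ≤ X := div_le_self hX0.le hM
  rw [Gf_eq, Gf_eq]
  have hsub : (pr (X / M)).filter (fun q : ℕ => ∃ r : ℤ, (q : ℤ) ∣ f.eval r) ⊆
      (pr X).filter (fun q : ℕ => ∃ r : ℤ, (q : ℤ) ∣ f.eval r) := by
    intro q hq
    unfold pr at hq ⊢
    simp only [mem_filter, mem_Icc] at hq ⊢
    exact ⟨⟨⟨hq.1.1.1, hq.1.1.2.trans (Nat.floor_le_floor hle)⟩, hq.1.2⟩, hq.2⟩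
  rw [← sum_sdiff hsub, add_comm]
  refine add_le_add le_rfl ?_
  have h1 : ∀ q ∈ (pr X).filter (fun q : ℕ => ∃ r : ℤ, (q : ℤ) ∣ f.eval r) \
      (pr (X / M)).filter (fun q : ℕ => ∃ r : ℤ, (q : ℤ) ∣ f.eval r), (1 : ℝ) / (q : ℝ) ≤ M / X := by
    intro q hq
    unfold pr at hq
    simp only [mem_sdiff, mem_filter, mem_Icc, not_and, and_imp] at hq
    have h2 : ¬ q ≤ ⌊X / M⌋₊ := fun h => hq.2 hq.1.1.1.1 h hq.1.1.2 hq.1.2
    push Not at h2
    have h3 : X / M < q := (Nat.floor_lt hXM.le).mp h2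
    have h4 : (0 : ℝ) < q := hXM.trans h3
    rw [div_le_div_iff₀ h4 hX0, one_mul]
    rw [div_lt_iff₀ hM0] at h3
    linarith
  refine (sum_le_card_nsmul _ _ _ h1).trans ?_
  have h5 : (((pr X).filter (fun q : ℕ => ∃ r : ℤ, (q : ℤ) ∣ f.eval r) \
      (pr (X / M)).filter (fun q : ℕ => ∃ r : ℤ, (q : ℤ) ∣ f.eval r)).card : ℝ) ≤ X := by
    have h6 : ((pr X).filter (fun q : ℕ => ∃ r : ℤ, (q : ℤ) ∣ f.eval r) \
      (pr (X / M)).filter (fun q : ℕ => ∃ r : ℤ, (q : ℤ) ∣ f.eval r)).card ≤ ⌊X⌋₊ := by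
      refine (card_le_card (sdiff_subset.trans
            ((filter_subset _ _).trans (filter_subset _ _)))).trans (le_of_eq ?_)
      rw [Nat.card_Icc]; omega
    exact (by exact_mod_cast h6 : _ ≤ ((⌊X⌋₊ : ℕ) : ℝ)).trans (Nat.floor_le hX0.le)
  rw [nsmul_eq_mul]
  calc _ ≤ X * (M / X) := mul_le_mul_of_nonneg_right h5 (by positivity)
    _ = M := by field_simp

theorem low (h1 : S_SOLV) (h2 : S_CH1) (h3 : S_CNTL) : S_LOW := by
  classical
  intro f hf
  have hf0 : f ≠ 0 := by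
    rintro rfl
    rw [Polynomial.map_zero] at hf
    exact not_irreducible_zero hf
  obtain ⟨D0, hD0, hD0s, hels⟩ := exists_els hf0
  obtain ⟨W, hW, hDW, hsol⟩ := h1 f hf D0 hD0 hels
  obtain ⟨c0, Y0, hc0, hch⟩ := h2 f hf W hW
  obtain ⟨P, hP⟩ : ∃ P : Set ℕ, P = {q : ℕ | q.Prime ∧ ∃ r : ℤ, (q : ℤ) ∣ f.eval r} := ⟨_, rfl⟩
  have hPm : ∀ q : ℕ, q ∈ P ↔ q.Prime ∧ ∃ r : ℤ, (q : ℤ) ∣ f.eval r := by intro q; rw [hP]; rfl
  obtain ⟨S, hS⟩ : ∃ S : Set ℕ, S = {p : ℕ | p ∈ P ∧ p % W = 1 % W} := ⟨_, rfl⟩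
  have hSm : ∀ q : ℕ, q ∈ S ↔ q ∈ P ∧ q % W = 1 % W := by intro q; rw [hS]; rfl
  obtain ⟨c, X0, hc, hcn⟩ := h3 W P S hW (fun p hp => ((hSm p).mp hp).1)
    (fun p hp => ((hPm p).mp hp).1) (fun p hp => ((hSm p).mp hp).2) ⟨c0, Y0, hc0, fun Y hY => by
      refine (hch Y hY).trans (le_of_eq ?_)
      congr 2
      refine filter_congr fun p hp => ?_
      unfold pr at hp
      rw [mem_filter] at hp
      rw [hSm, hPm]
      tauto⟩
  obtain ⟨M, hM⟩ : ∃ M : ℝ, M = (D0.natAbs : ℝ) := ⟨_, rfl⟩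
  have hM1 : 1 ≤ M := by
    rw [hM]; exact_mod_cast Nat.one_le_iff_ne_zero.mpr (Int.natAbs_ne_zero.mpr hD0)
  have hM0 : 0 < M := by linarith
  refine ⟨c / M * Real.exp (-M), max (M * X0) (M * 3), by positivity, fun X hX => ?_⟩
  have hX1 : M * X0 ≤ X := (le_max_left _ _).trans hX
  have hX2 : M * 3 ≤ X := (le_max_right _ _).trans hX
  have hX3 : 3 ≤ X / M := by rw [le_div_iff₀ hM0]; linarith
  have hX0 : 0 < X := by nlinarith
  have hXM : X / M ≤ X := div_le_self hX0.le hM1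
  have h4 := hcn (X / M) (by rw [le_div_iff₀ hM0]; linarith)
  have hlog : 0 < Real.log (X / M) := Real.log_pos (by linarith)
  have hlog2 : Real.log (X / M) ≤ Real.log X := Real.log_le_log (by linarith) hXM
  have h5 : ∑ q ∈ (pr (X / M)).filter (fun q : ℕ => q ∈ P), (1 : ℝ) / (q : ℝ) = Gf f (X / M) := by
    rw [Gf_eq]
    refine sum_congr (filter_congr fun p hp => ?_) fun _ _ => rfl
    unfold pr at hp
    rw [mem_filter] at hp
    rw [hPm]
    tauto
  rw [h5] at h4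
  have h6 := Gf_le f hM1 (by linarith : M ≤ X)
  have h7 : c / M * Real.exp (-M) * X / Real.log X * Real.exp (Gf f X) ≤
      c * (X / M) / Real.log (X / M) * Real.exp (Gf f (X / M)) := by
    have h8 : Real.exp (Gf f X) ≤ Real.exp (Gf f (X / M)) * Real.exp M := by
      rw [← Real.exp_add]; exact Real.exp_le_exp.mpr h6
    have h9 : Real.exp (-M) * Real.exp M = 1 := by rw [← Real.exp_add]; simp
    calc c / M * Real.exp (-M) * X / Real.log X * Real.exp (Gf f X)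
        = (c * (X / M)) / Real.log X * (Real.exp (-M) * Real.exp (Gf f X)) := by ring
      _ ≤ (c * (X / M)) / Real.log (X / M) * (Real.exp (-M) * (Real.exp (Gf f (X / M)) * Real.exp M)) := by
          gcongr
      _ = (c * (X / M)) / Real.log (X / M) * (Real.exp (Gf f (X / M)) * (Real.exp (-M) * Real.exp M)) := by ring
      _ = _ := by rw [h9, mul_one]
  refine h7.trans (h4.trans ?_)
  -- the injection
  have hfin : {D : ℤ | (D.natAbs : ℝ) ≤ X ∧ Squarefree D ∧ ELS f D}.Finite := by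
    refine (Set.finite_Icc (-(⌊X⌋₊ : ℤ)) (⌊X⌋₊ : ℤ)).subset fun D hD => ?_
    have h8 : D.natAbs ≤ ⌊X⌋₊ := Nat.le_floor hD.1
    rw [Set.mem_Icc]
    omega
  refine Nat.cast_le.mpr ?_
  rw [← Set.ncard_coe_finset]
  refine Set.ncard_le_ncard_of_injOn (fun m : ℕ => D0 * (m : ℤ)) (fun m hm => ?_) ?_ hfin
  · rw [Finset.mem_coe, mem_filter, mem_Icc] at hm
    obtain ⟨⟨m1, m2⟩, m3, m4, m5, m6⟩ := hm
    refine ⟨?_, ?_, ?_⟩
    · rw [Int.natAbs_mul, Int.natAbs_natCast, Nat.cast_mul, ← hM]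
      have h8 : (m : ℝ) ≤ X / M := (Nat.le_floor_iff (by positivity)).mp m2
      calc M * (m : ℝ) ≤ M * (X / M) := mul_le_mul_of_nonneg_left h8 hM0.le
        _ = X := by field_simp
    · have hcop : IsCoprime D0 (m : ℤ) := by
        have h8 : IsCoprime (W : ℤ) (m : ℤ) := by
          rw [Nat.isCoprime_iff_coprime]; exact m4.symm
        exact h8.of_isCoprime_of_dvd_left hDW
      rw [squarefree_mul_iff]
      refine ⟨hcop.isRelPrime, hD0s, ?_⟩
      exact_mod_cast (Int.squarefree_natCast.mpr m3)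
    · exact hsol m (by omega) m4 m6 fun q hq hqm => ((hPm q).mp (m5 q hq hqm)).2
  · intro m _ m' _ h
    have h8 : D0 * (m : ℤ) = D0 * (m' : ℤ) := h
    exact_mod_cast mul_left_cancel₀ hD0 h8

end Pool.Agent.Q198.EL
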