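import Pool.Agent.Q51.EL.Stm

set_option autoImplicit false

/-! Project EL (helper51), job S2E. -/

namespace Pool.Agent.Q198.EL

open Polynomial Finset Pool.Agent.Q51.EL

lemma hom_map (f : ℤ[X]) {R S : Type*} [CommRing R] [CommRing S] (φ : R →+* S) (x w : R) :
    φ (hom f x w) = hom f (φ x) (φ w) := by
  unfold hom
  simp [map_sum]

/-- the homogenisation as a product over the zeros -/
lemma hom_prod (f : ℤ[X]) {Ω : Type*} [Field Ω] [CharZero Ω]
    (hs : (f.map (Int.castRingHom Ω)).Splits) (x w : Ω) :
    hom f x w = (f.leadingCoeff : Ω) *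
      ((f.map (Int.castRingHom Ω)).roots.map fun θ => x - w * θ).prod := by
  have hinj : Function.Injective (Int.castRingHom Ω) := Int.cast_injective
  have hdeg : (f.map (Int.castRingHom Ω)).natDegree = f.natDegree := natDegree_map_eq_of_injective hinj f
  have hlc : (f.map (Int.castRingHom Ω)).leadingCoeff = (f.leadingCoeff : Ω) := by
    rw [leadingCoeff_map_of_injective hinj]; rfl
  have hcard : (f.map (Int.castRingHom Ω)).roots.card = f.natDegree := by
    rw [← hdeg]; exact hs.natDegree_eq_card_roots.symm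
  by_cases hw : w = 0
  · subst hw
    have h1 : hom f x 0 = (f.leadingCoeff : Ω) * x ^ f.natDegree := by
      unfold hom
      rw [sum_range_succ, sum_eq_zero]
      · simp
      · intro i hi
        rw [mem_range] at hi
        rw [zero_pow (by omega), mul_zero]
    rw [h1]
    simp [hcard]
  · have h1 : hom f x w = w ^ f.natDegree * (f.map (Int.castRingHom Ω)).eval (x / w) := by
      unfold hom
      rw [eval_eq_sum_range, hdeg, mul_sum]
      refine sum_congr rfl fun i hi => ?_
      rw [mem_range] at hi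
      rw [coeff_map]
      have h2 : w ^ f.natDegree = w ^ i * w ^ (f.natDegree - i) := by
        rw [← pow_add]; congr 1; omega
      rw [h2, div_pow]
      simp only [eq_intCast]
      field_simp
    have h3 : (f.map (Int.castRingHom Ω)).eval (x / w) = (f.leadingCoeff : Ω) *
        ((f.map (Int.castRingHom Ω)).roots.map fun θ => x / w - θ).prod := by
      conv_lhs => rw [hs.eq_prod_roots]
      rw [eval_mul, eval_C, hlc, eval_multiset_prod, Multiset.map_map]
      simp
    rw [h1, h3, ← hcard]
    have h4 : ∀ s : Multiset Ω, (s.map fun θ => x - w * θ).prod =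
        w ^ s.card * (s.map fun θ => x / w - θ).prod := by
      intro s
      induction s using Multiset.induction_on with
      | empty => simp
      | cons a s ih =>
        rw [Multiset.map_cons, Multiset.prod_cons, Multiset.map_cons, Multiset.prod_cons, ih,
          Multiset.card_cons, pow_succ]
        field_simp
    rw [h4]
    ring

/-- the norm as a product over the zeros -/
lemma norm_prod {f : ℚ[X]} (hf : Irreducible f) (d : ℚ[X]) (Ω : Type*) [Field Ω] [CharZero Ω]
    [IsAlgClosed Ω] :
    ((Algebra.norm ℚ (AdjoinRoot.mk f d) : ℚ) : Ω) =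
      ((f.map (Rat.castHom Ω)).roots.map fun θ => (d.map (Rat.castHom Ω)).eval θ).prod := by
  classical
  have hr : algebraMap ℚ Ω = Rat.castHom Ω := Subsingleton.elim _ _
  have hnd : (f.aroots Ω).Nodup := nodup_roots (hf.separable.map)
  have e2 : (f.map (Rat.castHom Ω)).roots = f.aroots Ω := by rw [aroots, hr]
  have e3 : ∀ θ : Ω, (d.map (Rat.castHom Ω)).eval θ = aeval θ d := by
    intro θ
    rw [← hr, eval_map_algebraMap]
  rw [e2]
  simp only [e3]
  have e4 : ((f.aroots Ω).map fun θ => aeval θ d).prod = ∏ x ∈ (f.aroots Ω).toFinset, aeval x d := by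
    rw [Finset.prod_eq_multiset_prod, Multiset.toFinset_val, hnd.dedup]
  rw [e4]
  have e5 : ∏ x ∈ (f.aroots Ω).toFinset, aeval x d = ∏ x : {x // x ∈ f.aroots Ω}, aeval (x : Ω) d := by
    rw [← Finset.prod_coe_sort]
    refine Fintype.prod_equiv (Equiv.subtypeEquivRight fun x => by simp) _ _ fun x => rfl
  rw [e5]
  have key : ∀ [hF : Fact (Irreducible f)], Rat.castHom Ω (Algebra.norm ℚ (AdjoinRoot.mk f d)) =
      ∏ x : {x // x ∈ f.aroots Ω}, aeval (x : Ω) d := by
    intro hF
    have : FiniteDimensional ℚ (AdjoinRoot f) := (AdjoinRoot.powerBasis hf.ne_zero).finite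
    have h1 := Algebra.norm_eq_prod_embeddings ℚ (L := AdjoinRoot f) Ω (AdjoinRoot.mk f d)
    rw [hr] at h1
    refine Eq.trans ?_ (h1.trans ?_)
    · rfl
    · refine Fintype.prod_equiv (AdjoinRoot.equiv Ω ℚ f hf.ne_zero) _ _ fun σ => ?_
      have h2 : ((AdjoinRoot.equiv Ω ℚ f hf.ne_zero σ : {x // x ∈ f.aroots Ω}) : Ω) =
          σ (AdjoinRoot.root f) := by
        simp [AdjoinRoot.equiv, PowerBasis.liftEquiv']
      rw [h2, ← AdjoinRoot.aeval_eq, aeval_algHom_apply]
      rfl
  have h3 := @key ⟨hf⟩
  exact h3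

/-- the product of the values of a polynomial at the zeros is rational -/
lemma prod_eval_mem {F Ω : Type*} [Field F] [Field Ω] [IsAlgClosed Ω] (φ : F →+* Ω) {f : F[X]} (hf : f ≠ 0)
    (g : F[X]) : ∃ G : F, φ G = ((f.map φ).roots.map fun θ => (g.map φ).eval θ).prod := by
  have h1 := resultant_eq_prod_eval (f.map φ) (g.map φ) g.natDegree natDegree_map_le
    (IsAlgClosed.splits (f.map φ))
  rw [natDegree_map_eq_of_injective φ.injective, resultant_map_map, leadingCoeff_map] at h1
  have h2 : φ f.leadingCoeff ≠ 0 := by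
    rw [_root_.map_ne_zero]; exact leadingCoeff_ne_zero.mpr hf
  refine ⟨resultant f g f.natDegree g.natDegree / f.leadingCoeff ^ g.natDegree, ?_⟩
  rw [map_div₀, map_pow, h1]
  field_simp

theorem s2e : S_S2E := by
  intro f hf D d hD hsq F _ _ hcov
  obtain ⟨x, w, g, hxw, hdvd⟩ := hcov
  obtain ⟨s, hs⟩ := hsq
  refine ⟨x, w, ?_⟩
  let Ω := AlgebraicClosure F
  let φ : F →+* Ω := algebraMap F Ω
  have hf0 : f ≠ 0 := by
    rintro rfl
    rw [Polynomial.map_zero] at hf
    exact not_irreducible_zero hf
  have hinjF : Function.Injective (Int.castRingHom F) := Int.cast_injective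
  have hmapF : (f.map (Int.castRingHom F)).map φ = f.map (Int.castRingHom Ω) := by
    rw [Polynomial.map_map]; congr 1
  have hmapQ : (f.map (Int.castRingHom ℚ)).map (Rat.castHom Ω) = f.map (Int.castRingHom Ω) := by
    rw [Polynomial.map_map]; congr 1; exact Subsingleton.elim _ _
  have hmapd : (d.map (Rat.castHom F)).map φ = d.map (Rat.castHom Ω) := by
    rw [Polynomial.map_map]; congr 1
  obtain ⟨G, hG⟩ := prod_eval_mem φ ((Polynomial.map_ne_zero_iff hinjF).mpr hf0) g
  rw [hmapF] at hG
  have h1 := norm_prod hf d Ω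
  rw [hmapQ] at h1
  have h2 := hom_prod f (Ω := Ω) (IsAlgClosed.splits _) (φ x) (φ w)
  rw [← hom_map] at h2
  have h3 : ((f.map (Int.castRingHom Ω)).roots.map fun θ => φ x - φ w * θ).prod =
      ((f.map (Int.castRingHom Ω)).roots.map fun θ =>
        (d.map (Rat.castHom Ω)).eval θ * ((g.map φ).eval θ * (g.map φ).eval θ)).prod := by
    congr 1
    refine Multiset.map_congr rfl fun θ hθ => ?_
    have h4 := (Polynomial.map_dvd φ hdvd)
    rw [hmapF] at h4
    have h5 : (f.map (Int.castRingHom Ω)).eval θ = 0 := by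
      have := (mem_roots'.mp hθ).2
      exact this
    obtain ⟨q, hq⟩ := h4
    have h6 := congrArg (eval θ) hq
    rw [eval_mul, h5, zero_mul] at h6
    simp only [Polynomial.map_sub, Polynomial.map_mul, Polynomial.map_pow, map_C, map_X, hmapd,
      eval_sub, eval_mul, eval_pow, eval_C, eval_X] at h6
    linear_combination h6
  rw [Multiset.prod_map_mul, Multiset.prod_map_mul, ← hG, ← h1] at h3
  rw [h3] at h2
  obtain ⟨N, hN⟩ : ∃ N, N = Algebra.norm ℚ (AdjoinRoot.mk (f.map (Int.castRingHom ℚ)) d) := ⟨_, rfl⟩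
  rw [← hN] at hs h2
  -- the identity in `F`
  have h7 : hom f x w = (f.leadingCoeff : F) * ((N : F) * (G * G)) := by
    apply φ.injective
    rw [h2]
    simp
  have h8 : ((D : F) * (f.leadingCoeff : F)) * (N : F) = (s : F) * (s : F) := by
    have := congrArg (fun q : ℚ => (q : F)) hs
    push_cast at this
    exact this
  have hDF : (D : F) ≠ 0 := by exact_mod_cast hD
  refine ⟨(s : F) * G / D, hxw, ?_⟩
  rw [h7]
  field_simp
  linear_combination (-(G ^ 2)) * h8

end Pool.Agent.Q198.EL
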